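import Pool.Agent.Helper96.GU.StF

set_option autoImplicit false

/-!
# Project GF (MP_2c90c1_al), module VNT
-/

namespace Pool.Agent.Helper72.GF

open Pool.Agent.Helper96.UT hiding StTOP TopV TopE tht Bd VC EC
open Pool.Agent.Helper96.GU

/-- VNT -/
theorem tVNT : StVNT := by
  intro α r Z hr g hg
  unfold NT at hg
  induction hg using Subgroup.closure_induction with
  | mem g hg =>
    obtain ⟨p, hp, rfl⟩ := hg
    refine ⟨p ++ (seg Z.c 0 Z.n ++ FreeGroup.invRev p), ?_, ?_⟩
    · rw [mk_append, mk_append, mk_invRev, mk_seg_s, mul_assoc]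
    · rw [io_append, io_append, ← hr, io_r, one_mul]
      exact one_IM1 r p hp
  | one => exact ⟨[], rfl, rfl⟩
  | mul x y _ _ hx hy =>
    obtain ⟨w, hw, hw1⟩ := hx
    obtain ⟨v, hv, hv1⟩ := hy
    exact ⟨w ++ v, by rw [mk_append, hw, hv], by rw [io_append, hw1, hv1, one_mul]⟩
  | inv x _ hx =>
    obtain ⟨w, hw, hw1⟩ := hx
    refine ⟨FreeGroup.invRev w, by rw [mk_invRev, hw], ?_⟩
    have h := one_IM1 r w (by rw [hw1]; exact RU_one r)
    rw [hw1, one_mul] at h
    exact h

end Pool.Agent.Helper72.GF
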